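import Pool.Agent.U644.MW.Defs
import Pool.Agent.U644.LT.Defs
import Pool.Agent.Y163.MW.Base

/-!
# Kummer log étale cohomology of projective SNCL schemes over a log point over a finite field

`T.H X` is the Kummer log étale cohomology `⨁ H^m` of the projective SNCL scheme `X` over the log
point over a finite field with `q` elements, with coefficients in an algebraic closure of `ℚ_l`, with the
geometric Frobenius `F` (a lift to the log fundamental group) and the monodromy operator `N`. The
graded piece of weight `m + c` of the weight filtration `P` of `H^m` is identified with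
`(T.H X).exc q m c`, the sum of the generalized eigenspaces of `F` in `H^m` for the eigenvalues of weight
`m + c`. `T.C X` is the étale cohomology of the underlying scheme of `X` over an algebraic closure.
-/

set_option autoImplicit false

open Module

namespace Pool.Agent.U644.KL

universe u v w

open Pool.Agent.Y143 Pool.Agent.Y163.MW Pool.Agent.U644.LT Pool.Agent.U644.MW

section plain

variable {Ω : Type w} [Field Ω] {S V : Type v} [AddCommGroup S] [Module Ω S] [AddCommGroup V]
  [Module Ω V]

/-- The local invariant cycle property: the kernel of `N` in degree `m` is the image of `S` in degree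
`m`, for all `m`. -/
def Cycles (gs : ℕ → Submodule Ω S) (gr : ℕ → Submodule Ω V) (N : Module.End Ω V)
    (sp : S →ₗ[Ω] V) : Prop := ∀ m, ∀ x ∈ gr m, N x = 0 → ∃ s ∈ gs m, sp s = x

/-- `x` has degree `m`, is killed by `N`, is not in `S'`, and `F x = α x` modulo `S'`. -/
def IsCoker (S' : Submodule Ω V) (gr : ℕ → Submodule Ω V) (F N : Module.End Ω V) (m : ℕ) (α : Ω)
    (x : V) : Prop := x ∈ gr m ∧ N x = 0 ∧ x ∉ S' ∧ F x - α • x ∈ S'

variable [CharZero Ω]

/-- The known properties of the map from the cohomology `S` of the underlying scheme to the log étale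
cohomology `V`: it respects the degrees and the Frobenius operators, its image is killed by `N`, the
weights of `S` in degree `m` are at most `m` (Deligne), and the weights of the cokernel of the map to the
kernel of `N` are larger than `m` (by duality). -/
structure IsSpecialization (q : ℕ) (gs : ℕ → Submodule Ω S) (φ : Module.End Ω S)
    (gr : ℕ → Submodule Ω V) (F N : Module.End Ω V) (sp : S →ₗ[Ω] V) : Prop where
  finite : Module.Finite Ω S
  respects : Respects gs φ
  weights : ∀ (m : ℕ) (α : Ω) (s : S), s ∈ gs m → s ≠ 0 → φ s = α • s →
    ∃ w : ℤ, w ≤ m ∧ IsWeilNumber q w α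
  frob : ∀ s, sp (φ s) = F (sp s)
  degree : ∀ m, ∀ s ∈ gs m, sp s ∈ gr m
  killed : ∀ s, N (sp s) = 0
  coker : ∀ (m : ℕ) (α : Ω) (x : V), IsCoker ((gs m).map sp) gr F N m α x →
    ∃ w : ℤ, (m : ℤ) < w ∧ IsWeilNumber q w α

end plain

/-- The data: the projective SNCL schemes `X` over the log point (of pure dimension), their
dimensions, products (SNCL log modifications of the fibre products), log étale cohomology `H X`, the
étale cohomology `C X` of the underlying schemes and the maps `sp X`. -/
structure LogSchemes (Ω : Type w) [Field Ω] where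
  /-- the log schemes -/
  Obj : Type u
  /-- the products -/
  prod : Obj → Obj → Obj
  /-- the dimension -/
  dim : Obj → ℕ
  /-- the log étale cohomology -/
  H : Obj → Coh.{v, w} Ω
  /-- the étale cohomology of the underlying scheme -/
  C : Obj → Coh.{v, w} Ω
  /-- the map from the étale cohomology of the underlying scheme to the log étale cohomology -/
  sp : ∀ X, (C X).V →ₗ[Ω] (H X).V

variable {Ω : Type w} [Field Ω] [CharZero Ω]

namespace LogSchemes

variable (T : LogSchemes.{u, v, w} Ω)

/-- The product `X × Z ^ n`. -/
def times (X Z : T.Obj) : ℕ → T.Obj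
  | 0 => X
  | n + 1 => T.prod (times X Z n) Z

/-- Poincaré duality for `X`. -/
def Poincare (q : ℕ) (X : T.Obj) : Prop := ∃ B, IsPoincare q (T.dim X) (T.H X).gr (T.H X).F B

/-- The Künneth formula for `X` and `Y`. -/
def Kunneth (X Y : T.Obj) : Prop := ∃ κ, IsKunneth (T.H X) (T.H Y) (T.H (T.prod X Y)) κ

/-- The known properties of the map `sp X`. -/
def Specialization (q : ℕ) (X : T.Obj) : Prop :=
  IsSpecialization q (T.C X).gr (T.C X).F (T.H X).gr (T.H X).F (T.H X).N (T.sp X)

/-- The known facts, with a test object `Z` (a log Tate curve: a cycle of projective lines). -/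
structure Known (q : ℕ) (Z : T.Obj) : Prop where
  one_lt : 1 < q
  pre : ∀ X, IsPre (T.H X) q
  poincare : ∀ X, T.Poincare q X
  kunneth : ∀ X Y, T.Kunneth X Y
  dim_prod : ∀ X Y, T.dim (T.prod X Y) = T.dim X + T.dim Y
  range : ∀ X, WeightRange (T.H X) q (T.dim X)
  specialization : ∀ X, T.Specialization q X
  dim_test : T.dim Z = 1
  test : IsTest (T.H Z) q

/-- Kato's conjecture for `X`: for all `m` and all `e` the map
`N ^ e : gr^P_{m + e} H^m → gr^P_{m - e} H^m` is an isomorphism. -/
def Kato (q : ℕ) (X : T.Obj) : Prop := ∀ m, Centred ((T.H X).exc q m) (T.H X).N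

/-- The local invariant cycle theorem for `X`: for all `m` the kernel of `N` in the log étale
cohomology `H^m` is the image of the étale cohomology of the underlying scheme. -/
def InvariantCycles (X : T.Obj) : Prop := Cycles (T.C X).gr (T.H X).gr (T.H X).N (T.sp X)

/-- The kernel of `N` in `H^m(Y)` has weights at most `m`, for all `m`. -/
def Bounded (q : ℕ) (Y : T.Obj) : Prop := InvariantsBounded (T.H Y) q

end LogSchemes

end Pool.Agent.U644.KL
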