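import Pool.Agent.U644.RA.Core
import Pool.Agent.U644.KL.Defs

/-!
# Kato's log `ℓ`-adic monodromy-weight conjecture and local invariant cycles: proofs
-/

set_option autoImplicit false

open Module TensorProduct

namespace Pool.Agent.U644.KL

universe u v w

open Pool.Agent.Y143 Pool.Agent.Y163.MW Pool.Agent.U644.LT Pool.Agent.U644.RA
open Pool.Agent.Y163.MW.Coh (adp_strings kunneth_tot)
open Pool.Agent.U644.MW (P InvariantsBounded IsTest WeightRange tmul_left_cancel)
open Pool.Agent.U644.GI (G G_unit)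

variable {Ω : Type w} [Field Ω] [CharZero Ω]

/-- The invariant cycle property gives the bound for the weights. -/
lemma bounded_of_cycles [IsAlgClosed Ω] {R C : Coh.{v, w} Ω} {q : ℕ} {sp : C.V →ₗ[Ω] R.V}
    (hs : IsSpecialization q C.gr C.F R.gr R.F R.N sp) (h : Cycles C.gr R.gr R.N sp) :
    InvariantsBounded R q := by
  have := hs.finite
  refine Pool.Agent.U644.MW.bounded_of_cycles fun m => ?_
  refine ⟨C.gr m, inferInstance, inferInstance, inferInstance, C.F.restrict (hs.respects m),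
    sp ∘ₗ (C.gr m).subtype, fun s => hs.frob s, fun α s hs0 hα => ?_, fun x hx hN => ?_⟩
  · exact hs.weights m α s s.2 (fun h0 => hs0 (Subtype.ext h0)) (congrArg Subtype.val hα)
  · obtain ⟨s, hs1, hs2⟩ := h m x hx hN
    exact ⟨⟨s, hs1⟩, hs2⟩

/-- The bound for the weights gives the invariant cycle property. -/
lemma cycles_of_bounded [IsAlgClosed Ω] {R C : Coh.{v, w} Ω} {q : ℕ} (hq : 1 < q)
    (hR : IsPre R q) {sp : C.V →ₗ[Ω] R.V} (hs : IsSpecialization q C.gr C.F R.gr R.F R.N sp)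
    (h : InvariantsBounded R q) : Cycles C.gr R.gr R.N sp := by
  have := hR.finite
  intro m
  by_contra hcon
  push Not at hcon
  obtain ⟨x, hx, hNx, hxs⟩ := hcon
  let A : Submodule Ω R.V := R.gr m ⊓ LinearMap.ker R.N
  let S' : Submodule Ω R.V := (C.gr m).map sp
  have hS'A : S' ≤ A := by
    rintro _ ⟨s, hs1, rfl⟩
    exact Submodule.mem_inf.2 ⟨hs.degree m s hs1, LinearMap.mem_ker.2 (hs.killed s)⟩
  have hA : ∀ x ∈ A, R.F x ∈ A := by
    intro x hx
    obtain ⟨h1, h2⟩ := Submodule.mem_inf.1 hx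
    refine Submodule.mem_inf.2 ⟨hR.F_gr _ x h1, ?_⟩
    rw [LinearMap.mem_ker] at h2 ⊢
    have := hR.N_F x
    rw [this, h2, map_zero, smul_zero]
  have hS' : ∀ x ∈ S', R.F x ∈ S' := by
    rintro _ ⟨s, hs1, rfl⟩
    exact ⟨C.F s, hs.respects m s hs1, hs.frob s⟩
  -- the quotient of `A` by `S'`
  let FA : Module.End Ω A := R.F.restrict hA
  let SA : Submodule Ω A := S'.comap A.subtype
  have hSA : SA ≤ SA.comap FA := fun x hx => hS' _ hx
  have hne : Nontrivial (A ⧸ SA) := by
    rw [Submodule.Quotient.nontrivial_iff]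
    intro htop
    have h1 : (⟨x, Submodule.mem_inf.2 ⟨hx, LinearMap.mem_ker.2 hNx⟩⟩ : A) ∈ SA := by
      rw [htop]; exact Submodule.mem_top
    obtain ⟨s, hs1, hs2⟩ := h1
    exact hxs s hs1 hs2
  obtain ⟨α, hα⟩ := Module.End.exists_eigenvalue (SA.mapQ SA FA hSA)
  obtain ⟨z, hz⟩ := hα.exists_hasEigenvector
  obtain ⟨y, rfl⟩ := Submodule.Quotient.mk_surjective SA z
  have hy1 : y ∉ SA := fun h1 => hz.2 ((Submodule.Quotient.mk_eq_zero SA).2 h1)
  have hy2 : FA y - α • y ∈ SA := by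
    rw [← Submodule.Quotient.eq]
    have h1 := hz.apply_eq_smul
    rw [Submodule.mapQ_apply] at h1
    rw [h1]
    rfl
  obtain ⟨hym, hyN⟩ := Submodule.mem_inf.1 y.2
  obtain ⟨w, hw, hwα⟩ := hs.coker m α y ⟨hym, LinearMap.mem_ker.1 hyN, hy1, hy2⟩
  -- `α` is an eigenvalue of `FA`
  have h3 : ∀ p : Polynomial Ω, (Polynomial.aeval FA p) y - p.eval α • y ∈ SA := by
    intro p
    induction p using Polynomial.induction_on' with
    | add p p' h h' =>
      have e : (Polynomial.aeval FA (p + p')) y - (p + p').eval α • y =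
          ((Polynomial.aeval FA p) y - p.eval α • y) +
            ((Polynomial.aeval FA p') y - p'.eval α • y) := by
        rw [map_add, LinearMap.add_apply, Polynomial.eval_add, add_smul]
        abel
      rw [e]
      exact SA.add_mem h h'
    | monomial n a =>
      have h4 : ∀ n : ℕ, (FA ^ n) y - α ^ n • y ∈ SA := by
        intro n
        induction n with
        | zero => simp
        | succ n ih =>
          have e : (FA ^ (n + 1)) y - α ^ (n + 1) • y =
              FA ((FA ^ n) y - α ^ n • y) + α ^ n • (FA y - α • y) := by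
            rw [pow_succ', Module.End.mul_apply, map_sub, map_smul, smul_sub, smul_smul,
              ← pow_succ]
            abel
          rw [e]
          exact SA.add_mem (hSA ih) (SA.smul_mem _ hy2)
      have e : (Polynomial.aeval FA (Polynomial.monomial n a)) y -
          (Polynomial.monomial n a).eval α • y = a • ((FA ^ n) y - α ^ n • y) := by
        rw [Polynomial.aeval_monomial, Polynomial.eval_monomial, Module.End.mul_apply,
          Module.algebraMap_end_apply, smul_sub, smul_smul]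
      rw [e]
      exact SA.smul_mem _ (h4 n)
  have h4 := h3 (minpoly Ω FA)
  rw [minpoly.aeval, LinearMap.zero_apply, zero_sub] at h4
  have h5 : (minpoly Ω FA).eval α = 0 := by
    by_contra h0
    have h6 := SA.smul_mem (-((minpoly Ω FA).eval α)⁻¹) h4
    rw [smul_neg, neg_smul, neg_neg, smul_smul, inv_mul_cancel₀ h0, one_smul] at h6
    exact hy1 h6
  obtain ⟨t, ht⟩ := (Module.End.hasEigenvalue_of_isRoot (f := FA) h5).exists_hasEigenvector
  obtain ⟨htm, htN⟩ := Submodule.mem_inf.1 t.2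
  obtain ⟨w', hw', hw'α⟩ := h m α t htm (fun h0 => ht.2 (Subtype.ext h0)) (LinearMap.mem_ker.1 htN)
    (congrArg Subtype.val ht.apply_eq_smul)
  have := weil_unique hq hwα hw'α
  omega

namespace LogSchemes

variable {T : LogSchemes.{u, v, w} Ω} {q : ℕ}

lemma cycles_iff [IsAlgClosed Ω] {Z : T.Obj} (hK : T.Known q Z) (Y : T.Obj) :
    T.InvariantCycles Y ↔ T.Bounded q Y :=
  ⟨bounded_of_cycles (hK.specialization Y),
    cycles_of_bounded hK.one_lt (hK.pre Y) (hK.specialization Y)⟩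

lemma kato_iff [IsAlgClosed Ω] {Z : T.Obj} (hK : T.Known q Z) (X : T.Obj) :
    T.Kato q X ↔ ∀ m, (T.H X).MWPure q m :=
  forall_congr' fun m => (mwPure_iff hK.one_lt (hK.pre X) m).symm

/-- Excess one on `X × Z ^ n` controls all the excesses at most `n + 1` on `X`. -/
lemma G_times [IsAlgClosed Ω] {Z : T.Obj} (hK : T.Known q Z) (X : T.Obj) (n : ℕ)
    (h : G (T.H (T.times X Z n)) q 0 1) :
    ∀ b c : ℕ, b < c → c ≤ n + 1 → G (T.H X) q b c := by
  have hq := hK.one_lt
  obtain ⟨h1, h2⟩ := exists_test hq (hK.pre Z) hK.test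
  obtain ⟨e, he, hf, hf0, hNf⟩ := h2
  have h3 : ∃ y ∈ (T.H Z).tot q (-1), y ≠ 0 ∧ (T.H Z).N y = 0 := ⟨_, hf, hf0, hNf⟩
  suffices H : ∀ b0 c0 : ℕ, G (T.H (T.times X Z n)) q b0 c0 → ∀ b c : ℕ, b0 ≤ b → c0 ≤ c →
      b - b0 ≤ c - c0 → c ≤ n + c0 → G (T.H X) q b c by
    intro b c hbc hc
    exact H 0 1 (by simpa using h) b c (by omega) (by omega) (by omega) (by omega)
  clear h
  induction n with
  | zero =>
    intro b0 c0 h b c hb hc hbc hc'
    obtain rfl : c = c0 := by omega
    obtain rfl : b = b0 := by omega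
    exact h
  | succ n ih =>
    intro b0 c0 h b c hb hc hbc hc'
    obtain ⟨κ, hκ⟩ := hK.kunneth (T.times X Z n) Z
    rcases Nat.lt_or_ge (n + c0) c with h4 | h4
    · rcases Nat.lt_or_ge b0 b with h5 | h5
      · have h6 := G_step hq (hK.pre _) hκ h ⟨e, he, hf, hf0, hNf⟩
        have h7 : G (T.H (T.times X Z n)) q (b0 + 1) ((c0 + 1 : ℕ) : ℤ) := by
          push_cast
          exact h6
        exact ih (b0 + 1) (c0 + 1) h7 b c (by omega) (by omega) (by omega) (by omega)
      · have h6 := G_unit hq hκ h h3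
        have h7 : G (T.H (T.times X Z n)) q b0 ((c0 + 1 : ℕ) : ℤ) := by
          push_cast
          rwa [sub_neg_eq_add] at h6
        exact ih b0 (c0 + 1) h7 b c (by omega) (by omega) (by omega) (by omega)
    · have h6 := G_unit hq hκ h h1
      rw [sub_zero] at h6
      exact ih b0 c0 h6 b c (by omega) (by omega) (by omega) (by omega)

/-- The bound on `X × Z ^ (dim X - 1)` is enough. -/
lemma kato_of_bounded [IsAlgClosed Ω] {Z : T.Obj} (hK : T.Known q Z) (X : T.Obj)
    (h : T.Bounded q (T.times X Z (T.dim X - 1))) : T.Kato q X := by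
  have hq := hK.one_lt
  have h0 : G (T.H (T.times X Z (T.dim X - 1))) q 0 1 :=
    (bounded_iff hq (hK.pre _)).1 h 1 (by norm_num)
  have h1 := G_times hK X _ h0
  obtain ⟨B, hB⟩ := hK.poincare X
  rw [kato_iff hK]
  refine pure_of_P hq (hK.pre X) ⟨_, B, hB⟩ fun b c hc x hx h0 => ?_
  obtain ⟨c, rfl⟩ : ∃ c' : ℕ, c = c' := ⟨c.toNat, by omega⟩
  rcases Nat.lt_or_ge (T.dim X) c with h2 | h2
  · rw [tot_eq_bot hq (hK.pre X) (hK.range X) (by omega)] at hx
    exact (Submodule.mem_bot Ω).1 hx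
  · exact h1 b c (by omega) (by omega) x hx h0

lemma exists_adp [IsAlgClosed Ω] {Z : T.Obj} (hK : T.Known q Z) (Y : T.Obj)
    (hY : ∀ m, (T.H Y).MWPure q m) :
    ∃ (I : Type) (_ : Fintype I) (a : I → ℤ), (T.H Y).Adp q a a := by
  obtain ⟨S⟩ := exists_strings hK.one_lt (hK.pre Y)
  have h := (mw_iff hK.one_lt (hK.pre Y) S).1 hY
  have h2 : S.ct = S.wt := by
    funext p
    unfold Strings.ct Strings.wt
    rw [h p.1]
  refine ⟨S.P, inferInstance, S.wt, ?_⟩
  have := adp_strings S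
  rwa [h2] at this

lemma adp_times [IsAlgClosed Ω] {Z : T.Obj} (hK : T.Known q Z) {X : T.Obj}
    (hX : ∃ (I : Type) (_ : Fintype I) (a : I → ℤ), (T.H X).Adp q a a) (n : ℕ) :
    ∃ (I : Type) (_ : Fintype I) (a : I → ℤ), (T.H (T.times X Z n)).Adp q a a := by
  induction n with
  | zero => exact hX
  | succ n ih =>
    obtain ⟨I, _, a, ha⟩ := ih
    obtain ⟨J, _, c, hc⟩ := exists_adp hK Z hK.test.pure
    obtain ⟨κ, hκ⟩ := hK.kunneth (T.times X Z n) Z
    exact ⟨I × J, inferInstance, _, ha.prod hc (by have := hK.one_lt; omega) hκ⟩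

lemma bounded_of_kato [IsAlgClosed Ω] {Z : T.Obj} (hK : T.Known q Z) (X : T.Obj)
    (h : T.Kato q X) (n : ℕ) : T.Bounded q (T.times X Z n) := by
  have hB1 : StB1.{w, v} := Pool.Agent.Y954.MW.stB1 Pool.Agent.Y141.MW.stL
  rw [kato_iff hK] at h
  refine (bounded_iff hK.one_lt (hK.pre _)).2 ?_
  obtain ⟨B, hB⟩ := hK.poincare (T.times X Z n)
  obtain ⟨I, _, a, ha⟩ := adp_times hK (exists_adp hK X h) n
  refine P_zero_of_inv_eq hK.one_lt (hK.pre _) ⟨_, B, hB⟩ ?_
  rw [ha.inv_eq hB1, adp_pred_eq hK.one_lt (hK.pre _) ha]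

lemma dim_times {Z : T.Obj} (hK : T.Known q Z) (X : T.Obj) (n : ℕ) :
    T.dim (T.times X Z n) = T.dim X + n := by
  induction n with
  | zero => rfl
  | succ n ih =>
    show T.dim (T.prod (T.times X Z n) Z) = _
    rw [hK.dim_prod, ih, hK.dim_test]
    ring

theorem local_form [IsAlgClosed Ω] {Z : T.Obj} (hK : T.Known q Z) (X : T.Obj) :
    List.TFAE [T.Kato q X, ∀ n, T.InvariantCycles (T.times X Z n),
      T.InvariantCycles (T.times X Z (T.dim X - 1)),
      T.Bounded q (T.times X Z (T.dim X - 1))] := by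
  tfae_have 1 → 2 := fun h n => (cycles_iff hK _).2 (bounded_of_kato hK X h n)
  tfae_have 2 → 3 := fun h => h _
  tfae_have 3 → 4 := fun h => (cycles_iff hK _).1 h
  tfae_have 4 → 1 := fun h => kato_of_bounded hK X h
  tfae_finish

theorem global_form [IsAlgClosed Ω] {Z : T.Obj} (hK : T.Known q Z) :
    (∀ X, T.Kato q X) ↔ ∀ Y, T.InvariantCycles Y :=
  ⟨fun h Y => by
    have h1 : T.Kato q Y ↔ ∀ n, T.InvariantCycles (T.times Y Z n) := (local_form hK Y).out 0 1
    exact h1.1 (h Y) 0,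
    fun h X => ((local_form hK X).out 2 0).1 (h _)⟩

theorem dim_form [IsAlgClosed Ω] {Z : T.Obj} (hK : T.Known q Z) (d : ℕ)
    (h : ∀ Y, T.dim Y ≤ 2 * d - 1 → T.InvariantCycles Y) : ∀ X, T.dim X ≤ d → T.Kato q X := by
  intro X hX
  refine ((local_form hK X).out 2 0).1 (h _ ?_)
  rw [dim_times hK]
  omega

end LogSchemes

end Pool.Agent.U644.KL
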